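import Pool.Agent.H62.UN.Targets

/-!
# MP_8b378c_ag: CPL, the conic bundle surface is complete
-/

set_option autoImplicit false

namespace Pool.Agent.H36.UNT

open Polynomial Pool.Agent.H17.UN Pool.Agent.H62.UN

section

variable {k F : Type} [Field k] [Field F] [Algebra k F]

/-- a valuation ring which contains `k`, as a subalgebra -/
def subO (O : ValuationSubring F) (hO : ∀ c : k, algebraMap k F c ∈ O) : Subalgebra k F :=
  { O.toSubring with algebraMap_mem' := hO }

theorem mem_subO (O : ValuationSubring F) (hO : ∀ c : k, algebraMap k F c ∈ O) (x : F) :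
    x ∈ subO O hO ↔ x ∈ O := Iff.rfl

theorem mem_of_sq (O : ValuationSubring F) {w : F} (h : w ^ 2 ∈ O) : w ∈ O := by
  rcases O.mem_or_inv_mem w with h1 | h1
  · exact h1
  · by_cases hw : w = 0
    · rw [hw]
      exact O.zero_mem
    · have h2 : w = w ^ 2 * w⁻¹ := by
        rw [pow_two, mul_assoc, mul_inv_cancel₀ hw, mul_one]
      rw [h2]
      exact O.mul_mem _ _ h h1

theorem aeval_mem (O : ValuationSubring F) (hO : ∀ c : k, algebraMap k F c ∈ O) {s : F}
    (hs : s ∈ O) (P : k[X]) : aeval s P ∈ O := by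
  have h1 : aeval s P ∈ Algebra.adjoin k {s} := aeval_mem_adjoin_singleton k s
  have h2 : Algebra.adjoin k {s} ≤ subO O hO := Algebra.adjoin_le (by
    rintro x rfl
    exact hs)
  exact h2 h1

theorem aeval_inv_mem (O : ValuationSubring F) (hO : ∀ c : k, algebraMap k F c ∈ O) {s : F}
    (hs0 : s ≠ 0) (hs : s⁻¹ ∈ O) (P : k[X]) {n : ℕ} (hn : P.natDegree ≤ n) :
    aeval s P / s ^ n ∈ O := by
  rw [aeval_eq_sum_range' (Nat.lt_succ_of_le hn), Finset.sum_div]
  refine O.toSubring.sum_mem fun i hi => ?_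
  have hi' : i ≤ n := Nat.lt_succ_iff.1 (Finset.mem_range.1 hi)
  have h1 : P.coeff i • s ^ i / s ^ n = algebraMap k F (P.coeff i) * (s⁻¹) ^ (n - i) := by
    rw [Algebra.smul_def, mul_div_assoc]
    congr 1
    rw [inv_pow, div_eq_iff (pow_ne_zero _ hs0), inv_mul_eq_div, eq_div_iff (pow_ne_zero _ hs0),
      ← pow_add, Nat.add_sub_cancel' hi']
  rw [h1]
  exact O.toSubring.mul_mem (hO _) (O.toSubring.pow_mem hs _)

theorem adj_le (O : ValuationSubring F) (hO : ∀ c : k, algebraMap k F c ∈ O) {a b c : F}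
    (ha : a ∈ O) (hb : b ∈ O) (hc : c ∈ O) : ∀ x ∈ Algebra.adjoin k {a, b, c}, x ∈ O := by
  have h2 : Algebra.adjoin k {a, b, c} ≤ subO O hO := Algebra.adjoin_le (by
    intro x hx
    simp only [Set.mem_insert_iff, Set.mem_singleton_iff] at hx
    rcases hx with rfl | rfl | rfl
    · exact ha
    · exact hb
    · exact hc)
  exact fun x hx => h2 hx

end

theorem pf_CPL : T_CPL := by
  intro k F _ _ _ P Q s y z hCB O hO
  have hs0 : s ≠ 0 := by
    have := hCB.ind.ne_zero 0
    simpa using this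
  have hz0 : z ≠ 0 := by
    have := hCB.ind.ne_zero 1
    simpa using this
  have hdP : P.natDegree ≤ 4 := by rw [hCB.dP]; norm_num
  have hdQ : Q.natDegree ≤ 2 := by rw [hCB.dQ]
  rcases O.mem_or_inv_mem s with hs | hs
  · have hP := aeval_mem O hO hs P
    have hQ := aeval_mem O hO hs Q
    rcases O.mem_or_inv_mem z with hz | hz
    · refine ⟨0, adj_le O hO hs (mem_of_sq O ?_) hz⟩
      rw [hCB.eq]
      exact O.add_mem _ _ hP (O.mul_mem _ _ hQ (O.toSubring.pow_mem hz 2))
    · refine ⟨1, adj_le O hO hs (mem_of_sq O ?_) hz⟩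
      have h1 : (y / z) ^ 2 = aeval s P * (z⁻¹) ^ 2 + aeval s Q := by
        rw [div_pow, hCB.eq]
        field_simp
      rw [h1]
      exact O.add_mem _ _ (O.mul_mem _ _ hP (O.toSubring.pow_mem hz 2)) hQ
  · have hP := aeval_inv_mem O hO hs0 hs P hdP
    have hQ := aeval_inv_mem O hO hs0 hs Q hdQ
    rcases O.mem_or_inv_mem (z / s) with hz | hz
    · refine ⟨2, adj_le O hO hs (mem_of_sq O ?_) hz⟩
      have h1 : (y / s ^ 2) ^ 2 = aeval s P / s ^ 4 + aeval s Q / s ^ 2 * (z / s) ^ 2 := by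
        rw [div_pow, hCB.eq]
        field_simp
      rw [h1]
      exact O.add_mem _ _ hP (O.mul_mem _ _ hQ (O.toSubring.pow_mem hz 2))
    · rw [inv_div] at hz
      refine ⟨3, adj_le O hO hs (mem_of_sq O ?_) hz⟩
      have h1 : (y / (s * z)) ^ 2 = aeval s P / s ^ 4 * (s / z) ^ 2 + aeval s Q / s ^ 2 := by
        rw [div_pow, hCB.eq]
        field_simp
      rw [h1]
      exact O.add_mem _ _ (O.mul_mem _ _ hP (O.toSubring.pow_mem hz 2)) hQ

end Pool.Agent.H36.UNT
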