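import Pool.Agent.H62.UN.Targets

/-!
# MP_8b378c_ag: EVA, the point `(1, p0, 0)` of the first chart
-/

set_option autoImplicit false

namespace Pool.Agent.H36.UNT

open Polynomial Pool.Agent.H17.UN Pool.Agent.H62.UN

theorem pf_EVA : F_EVA := by
  intro hNFI hCHT k F _ _ _ _ P Q s y z hCB p0 hp0
  have hC := (hCHT k F P Q s y z hCB).1
  obtain ⟨e, hex, hey, hez⟩ := hNFI k F P Q s y z hC
  let i : k[X][X] →ₐ[k] k :=
    (aeval (1 : k)).comp ((aeval (0 : k[X]) : k[X][X] →ₐ[k[X]] k[X]).restrictScalars k)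
  have hi : ∀ g : k[X][X], i g = (g.eval 0).eval 1 := by
    intro g
    simp [i]
  have hroot : (X ^ 2 - C (dp P Q) : k[X][X][X]).eval₂ (i : k[X][X] →+* k) p0 = 0 := by
    rw [eval₂_sub, eval₂_pow, eval₂_X, eval₂_C, hp0]
    change P.eval 1 - i (dp P Q) = 0
    rw [hi, dp]
    simp
  let ψ : CR P Q →ₐ[k] k := AdjoinRoot.liftAlgHom _ i p0 hroot
  have hψx : ψ (xC P Q) = 1 := by
    change AdjoinRoot.liftAlgHom _ i p0 hroot (AdjoinRoot.of _ (C X)) = 1
    rw [AdjoinRoot.liftAlgHom_of, hi]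
    simp
  have hψz : ψ (zC P Q) = 0 := by
    change AdjoinRoot.liftAlgHom _ i p0 hroot (AdjoinRoot.of _ X) = 0
    rw [AdjoinRoot.liftAlgHom_of, hi]
    simp
  have hψy : ψ (yC P Q) = p0 := by
    change AdjoinRoot.liftAlgHom _ i p0 hroot (AdjoinRoot.root _) = p0
    rw [AdjoinRoot.liftAlgHom_root]
  refine ⟨(ψ.comp (e.symm : cr k s y z →ₐ[k] CR P Q) : cr k s y z →ₐ[k] k), ?_⟩
  intro a
  have key : ∀ w : CR P Q, (a : F) = (e w : F) → ψ (e.symm a) = ψ w := by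
    intro w hw
    have h1 : (a : cr k s y z) = e w := Subtype.ext hw
    exact congrArg ψ (e.symm_apply_eq.2 h1)
  refine ⟨fun h => ?_, fun h => ?_, fun h => ?_⟩
  · rw [← hψx]
    exact key _ (by rw [hex]; exact h)
  · rw [← hψy]
    exact key _ (by rw [hey]; exact h)
  · rw [← hψz]
    exact key _ (by rw [hez]; exact h)

end Pool.Agent.H36.UNT
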