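import Pool.Agent.H62.UN.Targets

/-!
# MP_8b378c_ag: VEF, over each `a` with `P(a) Q(a) ≠ 0` there is a prime divisor
-/

set_option autoImplicit false

namespace Pool.Agent.H36.UNT

open Polynomial Pool.Agent.H17.UN Pool.Agent.H62.UN

theorem pf_VEF : F_VEF := by
  intro hCHT hLVR k F _ _ _ _ _ P Q s y z hCB a ha
  have hC := (hCHT k F P Q s y z hCB).1
  obtain ⟨o, ho, hc, h1, -, -⟩ := hLVR k F P Q s y z hC a ha
  exact ⟨toPD (A := ch k s y z) o ho 0 hc, h1⟩

end Pool.Agent.H36.UNT
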